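import Pool.Agent.W973.IP.FDefs

/-!
# Project IP: polynomial time for the terms of `G` and of its derivatives
-/

set_option autoImplicit false

namespace Pool.Agent.W428.IP

open Pool.Agent.W973.IP Pool.Agent.NPC Pool.Agent.NPC.ER Pool.Agent.NPC.H612

section

variable {α : Type} [TEnc α]

theorem poly_npair {a b : α → ℕ} (ha : Poly a) (hb : Poly b) :
    Poly (fun x => Nat.pair (a x) (b x)) := by
  unfold Nat.pair
  exact NPC.Poly.ite (NPC.Poly.decide_lt ha hb) (NPC.Poly.add (NPC.Poly.mul hb hb) ha)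
    (NPC.Poly.add (NPC.Poly.add (NPC.Poly.mul ha ha) ha) hb)

theorem poly_nm (ty : ℕ) {i j : α → ℕ} (hi : Poly i) (hj : Poly j) :
    Poly (fun x => nm ty (i x) (j x)) :=
  NPC.Poly.add (NPC.Poly.mul (NPC.Poly.const 16) (poly_npair hi hj)) (NPC.Poly.const ty)

theorem poly_powc {t : α → Tm} (ht : Poly t) (k : ℕ) : Poly (fun a => powT' (t a) k) :=
  poly_prodT (NPC.Poly.map (F := fun a _ => t a) (NPC.Poly.const (List.range k))
    (ht.comp (NPC.Poly.fst NPC.Poly.id)))

end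

theorem pgT (h1 : S_PU) (h2 : S_PQ) (h3 : S_PH) : S_PG := by
  intro α _ E S wn pT dT hE hS hwn hpT hdT
  have hn : UPoly (fun a => nn (S a)) := UPoly.length (poly_varsOf hS)
  obtain ⟨-, -, hfa, hbb⟩ := h1 α (fun a => nn (S a)) hn
  obtain ⟨-, hqa, hdq⟩ := h2 α (fun a => nn (S a)) wn hn hwn
  obtain ⟨hh, hdh⟩ := h3 α E S wn hE hS hwn
  have hcV : Poly (fun _ : α => cV) := NPC.Poly.const _
  have heV : Poly (fun _ : α => eV) := NPC.Poly.const _
  have hnil : Poly (fun _ : α => ([] : List Tm)) := NPC.Poly.const _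
  refine ⟨?_, ?_, ?_⟩
  · refine poly_sumT (NPC.Poly.cons (poly_tmul hh hpT) (NPC.Poly.cons (poly_tneg (poly_tmul hcV
      (poly_sumT ?_))) (NPC.Poly.cons (poly_tmul heV hqa) hnil)))
    exact NPC.Poly.map (F := fun _ l => powT' (Tm.var (nm 3 l 0)) 6) hn.range
      (poly_powc (poly_tvar (poly_nm 3 (NPC.Poly.snd NPC.Poly.id) (NPC.Poly.const 0))) 6)
  · intro j hj
    have hv : Poly (fun a => Tm.var (wn a (j a))) :=
      poly_tvar (NPC.Poly.comp (g := fun q : α × ℕ => wn q.1 q.2) (f := fun a => (a, j a)) hwn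
        (NPC.Poly.pair NPC.Poly.id hj.toPoly))
    exact poly_sumT (NPC.Poly.cons (poly_tmul (hdh false j hj.toPoly) hpT)
      (NPC.Poly.cons (poly_tmul hh (poly_tmul hdT (poly_tmul (NPC.Poly.const twoT) hv)))
        (NPC.Poly.cons (poly_tmul heV (hdq j hj)) hnil)))
  · intro l hl
    have ha : Poly (fun a => aT (nn (S a)) (l a)) :=
      poly_tvar (poly_nm 8 (NPC.Poly.mul hbb.toPoly (NPC.Poly.sub hfa.toPoly hl)) (NPC.Poly.const 0))
    exact poly_sumT (NPC.Poly.cons (poly_tmul (hdh true l hl) hpT)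
      (NPC.Poly.cons (poly_tneg (poly_tmul (NPC.Poly.const (numT 6)) (poly_tmul hcV
        (poly_powc (poly_tvar (poly_nm 3 hl (NPC.Poly.const 0))) 5))))
        (NPC.Poly.cons (poly_tmul heV ha) hnil)))

end Pool.Agent.W428.IP
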